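import Pool.Agent.Y541.Final

/-!
# The smallest exponent for dense linear systems is zero

One fixed program solves every invertible real system of linear equations to high accuracy with
`O(n^2 (log n + log κ)^2 + n^2 log (1/ε))` exact arithmetic operations. Hence, for the cost measure
`n^2`, every exponent `p > 0` is achievable, and the infimum of the achievable exponents is `0`.
-/

set_option autoImplicit false

namespace Pool.Agent.Results.MP_2781e4_lc.DenseExponentZero

open Pool.Agent.Y541 Matrix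
open scoped ENNReal

/-- the Euclidean norm -/
noncomputable def norm2 {n : ℕ} (v : Fin n → ℝ) : ℝ := Real.sqrt (∑ i, v i ^ 2)

/-- the singular value `σ_(i+1)` of `A`; `σ_1 ≥ ... ≥ σ_n` are `sing A 0, ..., sing A (n - 1)` -/
noncomputable def sing {n : ℕ} (A : Matrix (Fin n) (Fin n) ℝ) (i : ℕ) : ℝ :=
  (Matrix.toEuclideanLin A).singularValues i

/-- the `p`-averaged condition number of `A`, for `0 < p ≤ ∞` -/
noncomputable def avgCond {n : ℕ} (p : ℝ≥0∞) (A : Matrix (Fin n) (Fin n) ℝ) : ℝ :=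
  if p = ∞ then sing A 0 / sing A (n - 1)
  else (1 / (n : ℝ) * ∑ i : Fin n, sing A i ^ p.toReal / sing A (n - 1) ^ p.toReal) ^
    (1 / p.toReal)

/-- The program `P` solves every invertible system `A x = b` to high accuracy with
`Õ(n^2 κ_p(A))` steps, where `κ_p` is the `p`-averaged condition number. -/
def SolvesWithin (P : Program) (p : ℝ≥0∞) : Prop :=
  ∃ (C : ℝ) (k : ℕ), ∀ (n : ℕ) (A : Matrix (Fin n) (Fin n) ℝ) (b : Fin n → ℝ) (ε : ℝ),
    1 ≤ n → A.det ≠ 0 → 0 < ε → ε < 1 →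
      ∃ (t : ℕ) (s : State), Run P (State.init n A b ε) t s ∧
        norm2 (s.output n - A⁻¹ *ᵥ b) ≤ ε * norm2 (A⁻¹ *ᵥ b) ∧
        (t : ℝ) ≤ C * ((n : ℝ) ^ 2 * avgCond p A) *
          ((1 + Real.log n) ^ k * (1 + Real.log (1 / ε)) ^ k)

/-- the infimum of the achievable exponents for the cost measure `n^2` -/
noncomputable def pStar : ℝ≥0∞ := sInf {p : ℝ≥0∞ | 0 < p ∧ ∃ P : Program, SolvesWithin P p}

theorem norm2_eq {n : ℕ} (v : Fin n → ℝ) : norm2 v = nrm v := by
  unfold norm2 nrm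
  rw [EuclideanSpace.norm_eq]
  simp

theorem one_le_avgCond {n : ℕ} (hn : 1 ≤ n) {p : ℝ≥0∞} (hp : 0 < p)
    {A : Matrix (Fin n) (Fin n) ℝ} (hA : A.det ≠ 0) : 1 ≤ avgCond p A := by
  have h0 : 0 < sing A (n - 1) := sing_pos hn hA
  have h1 : ∀ i < n, sing A (n - 1) ≤ sing A i := fun i hi =>
    (Matrix.toEuclideanLin A).singularValues_antitone (by omega)
  unfold avgCond
  split_ifs with h
  · rw [le_div_iff₀ h0, one_mul]
    exact h1 0 hn
  · have hp' : 0 < p.toReal := ENNReal.toReal_pos hp.ne' h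
    have hn' : (0 : ℝ) < n := by exact_mod_cast hn
    refine Real.one_le_rpow ?_ (by positivity)
    have h2 : (n : ℝ) ≤ ∑ i : Fin n, sing A i ^ p.toReal / sing A (n - 1) ^ p.toReal := by
      calc (n : ℝ) = ∑ _i : Fin n, (1 : ℝ) := by simp
        _ ≤ _ := Finset.sum_le_sum fun i _ => by
          rw [le_div_iff₀ (Real.rpow_pos_of_pos h0 _), one_mul]
          exact Real.rpow_le_rpow h0.le (h1 i i.2) hp'.le
    rw [one_div_mul_eq_div, le_div_iff₀ hn', one_mul]
    exact h2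

theorem log_cond_le {n : ℕ} (hn : 1 ≤ n) {p : ℝ≥0∞} (hp : 0 < p)
    {A : Matrix (Fin n) (Fin n) ℝ} (hA : A.det ≠ 0) :
    Real.log (sing A 0 / sing A (n - 1)) ≤
      1 / p.toReal * Real.log n + Real.log (avgCond p A) := by
  have h0 : 0 < sing A (n - 1) := sing_pos hn hA
  have h1 : sing A (n - 1) ≤ sing A 0 :=
    (Matrix.toEuclideanLin A).singularValues_antitone (by omega)
  have h2 : 0 < sing A 0 := h0.trans_le h1
  have hn' : (1 : ℝ) ≤ n := by exact_mod_cast hn
  rcases eq_or_ne p ∞ with h | h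
  · subst h
    simp [avgCond]
  · have hp' : 0 < p.toReal := ENNReal.toReal_pos hp.ne' h
    have h3 : (sing A 0 / sing A (n - 1)) ^ p.toReal ≤
        ∑ i : Fin n, sing A i ^ p.toReal / sing A (n - 1) ^ p.toReal := by
      rw [Real.div_rpow h2.le h0.le]
      exact Finset.single_le_sum (f := fun i : Fin n =>
        sing A i ^ p.toReal / sing A (n - 1) ^ p.toReal) (fun i _ => div_nonneg
          (Real.rpow_nonneg ((Matrix.toEuclideanLin A).singularValues_nonneg _) _)
          (Real.rpow_nonneg h0.le _)) (Finset.mem_univ (⟨0, hn⟩ : Fin n))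
    set S := ∑ i : Fin n, sing A i ^ p.toReal / sing A (n - 1) ^ p.toReal with hS
    have h4 : 0 < (sing A 0 / sing A (n - 1)) ^ p.toReal := by positivity
    have h5 : 0 < S := h4.trans_le h3
    have h6 : avgCond p A = (1 / (n : ℝ) * S) ^ (1 / p.toReal) := by
      unfold avgCond
      rw [if_neg h]
    have h7 := Real.log_le_log h4 h3
    rw [Real.log_rpow (by positivity)] at h7
    rw [h6, Real.log_rpow (by positivity), Real.log_mul (by positivity) h5.ne', one_div (n : ℝ),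
      Real.log_inv]
    have h8 : 1 / p.toReal * Real.log n + 1 / p.toReal * (-Real.log n + Real.log S) =
        Real.log S / p.toReal := by ring
    rw [h8, le_div_iff₀ hp']
    linarith

/-- the main estimate for one exponent -/
theorem solvesWithin_solveP {p : ℝ≥0∞} (hp : 0 < p) : SolvesWithin solveP p := by
  refine ⟨70000 * (2 * (15 + 3 * (1 / p.toReal)) ^ 2 + 74), 2, ?_⟩
  intro n A b ε hn hA hε hε1
  have hn1 : (1 : ℝ) ≤ n := by exact_mod_cast hn
  have h0 : 0 < sing A (n - 1) := sing_pos hn hA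
  have h1 : sing A (n - 1) ≤ sing A 0 :=
    (Matrix.toEuclideanLin A).singularValues_antitone (by omega)
  have hK : 1 ≤ sing A 0 / sing A (n - 1) := by
    rw [le_div_iff₀ h0, one_mul]
    exact h1
  have hS : ∑ i, ∑ j, |A i j| ≤
      (n : ℝ) ^ 2 * (sing A 0 / sing A (n - 1)) * sing A (n - 1) := by
    refine (sum_abs_le A).trans (le_of_eq ?_)
    rw [mul_assoc, div_mul_cancel₀ _ h0.ne']
    rfl
  obtain ⟨t, s, hr, hs, -, ht⟩ := solve_log hn A b h0 (sing_lower A) hK hS hε hε1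
  refine ⟨t, s, hr, ?_, ht.trans ?_⟩
  · rw [norm2_eq, norm2_eq]
    exact hs
  have hκ := one_le_avgCond hn hp hA
  have hlog := log_cond_le hn hp hA
  set κ := avgCond p A with hκd
  set K := sing A 0 / sing A (n - 1) with hKd
  set q := 1 / p.toReal with hq
  have hq0 : 0 ≤ q := by positivity
  set a := Real.log n with ha
  have ha0 : 0 ≤ a := Real.log_nonneg hn1
  set c := Real.log (1 / ε) with hc
  have hc0 : 0 ≤ c := Real.log_nonneg (by rw [le_div_iff₀ hε]; linarith)
  have hκl : 0 ≤ Real.log κ := Real.log_nonneg hκ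
  have hKl : 0 ≤ Real.log K := Real.log_nonneg hK
  -- `(log κ)^2 ≤ 4 κ`
  have h3 : Real.log κ ^ 2 ≤ 4 * κ := by
    have e1 : Real.log κ = 2 * Real.log (Real.sqrt κ) := by
      rw [Real.log_sqrt (by linarith)]
      ring
    have e2 : Real.log (Real.sqrt κ) ≤ Real.sqrt κ := by
      have := Real.log_le_sub_one_of_pos (Real.sqrt_pos.2 (by linarith : (0 : ℝ) < κ))
      linarith
    have e3 : 0 ≤ Real.log (Real.sqrt κ) := Real.log_nonneg (Real.one_le_sqrt.2 hκ)
    have e4 : Real.sqrt κ ^ 2 = κ := Real.sq_sqrt (by linarith)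
    rw [e1]
    nlinarith
  have h4 : (15 * (1 + a) + 3 * Real.log K) ^ 2 ≤
      2 * (15 + 3 * q) ^ 2 * (1 + a) ^ 2 + 72 * κ := by
    have e1 : 15 * (1 + a) + 3 * Real.log K ≤ (15 + 3 * q) * (1 + a) + 3 * Real.log κ := by
      nlinarith
    have e2 : (15 * (1 + a) + 3 * Real.log K) ^ 2 ≤
        ((15 + 3 * q) * (1 + a) + 3 * Real.log κ) ^ 2 :=
      pow_le_pow_left₀ (by positivity) e1 2
    have e3 := sq_nonneg ((15 + 3 * q) * (1 + a) - 3 * Real.log κ)
    nlinarith
  -- everything is at most `κ (1 + a)^2 (1 + c)^2`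
  set X := κ * ((1 + a) ^ 2 * (1 + c) ^ 2) with hX
  have hA1 : 1 ≤ (1 + a) ^ 2 := one_le_pow₀ (by linarith)
  have hC1 : 1 ≤ (1 + c) ^ 2 := one_le_pow₀ (by linarith)
  have hAC : (1 + a) ^ 2 ≤ (1 + a) ^ 2 * (1 + c) ^ 2 := by nlinarith
  have hCA : (1 + c) ^ 2 ≤ (1 + a) ^ 2 * (1 + c) ^ 2 := by nlinarith
  have hAC1 : 1 ≤ (1 + a) ^ 2 * (1 + c) ^ 2 := hA1.trans hAC
  have x1 : (1 + a) ^ 2 ≤ X := by
    rw [hX]
    nlinarith
  have x2 : κ ≤ X := by
    rw [hX]
    nlinarith
  have x3 : 1 + c ≤ X := by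
    have : 1 + c ≤ (1 + c) ^ 2 := by nlinarith
    rw [hX]
    nlinarith
  have h5 : (15 * (1 + a) + 3 * Real.log K) ^ 2 + 2 * (1 + c) ≤
      (2 * (15 + 3 * q) ^ 2 + 74) * X := by
    have e1 : 2 * (15 + 3 * q) ^ 2 * (1 + a) ^ 2 ≤ 2 * (15 + 3 * q) ^ 2 * X :=
      mul_le_mul_of_nonneg_left x1 (by positivity)
    nlinarith
  calc 70000 * (n : ℝ) ^ 2 * ((15 * (1 + a) + 3 * Real.log K) ^ 2 + 2 * (1 + c))
      ≤ 70000 * (n : ℝ) ^ 2 * ((2 * (15 + 3 * q) ^ 2 + 74) * X) :=
        mul_le_mul_of_nonneg_left h5 (by positivity)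
    _ = 70000 * (2 * (15 + 3 * q) ^ 2 + 74) * ((n : ℝ) ^ 2 * κ) *
        ((1 + a) ^ 2 * (1 + c) ^ 2) := by
      rw [hX]
      ring

/-- **There is one program which is within the bound for every exponent `p > 0`, and the infimum of
the achievable exponents for the cost measure `n^2` is `0`.** -/
theorem result : (∃ P : Program, ∀ p : ℝ≥0∞, 0 < p → SolvesWithin P p) ∧ pStar = 0 := by
  refine ⟨⟨solveP, fun p hp => solvesWithin_solveP hp⟩, ?_⟩
  have h : {p : ℝ≥0∞ | 0 < p ∧ ∃ P : Program, SolvesWithin P p} = Set.Ioi 0 := by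
    ext p
    constructor
    · rintro ⟨h, -⟩
      exact h
    · intro hp
      exact ⟨hp, solveP, solvesWithin_solveP hp⟩
  unfold pStar
  rw [h]
  by_contra h0
  obtain ⟨q, hq0, hq⟩ := exists_between (pos_iff_ne_zero.2 h0)
  exact absurd (sInf_le (show q ∈ Set.Ioi 0 from hq0)) (not_le.2 hq)

end Pool.Agent.Results.MP_2781e4_lc.DenseExponentZero
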